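import Mathlib

/-!
# The limit probabilities of a self-exciting process need not be monotone in the initial condition

The intensity function is `lam z = max 0 (1/5 - z) + min 1 (max 0 (5 z - 3))`. Its fixed points are
`1/10` (stable), `3/4` (unstable) and `1` (stable). We show `p₂ 0 > 0`, `p₂ (3/5) = 0` and `p₂ 1 > 0`.

Proof: started from `γ = 3/5` the process has to wait until `(n + γ) / (t + 1)` is below `1/5` before
every jump, and then a jump cannot bring it above `3/5`. Started from `γ = 0` it can jump over the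
interval `[1/5, 3/5]` where `lam` vanishes, and started from `γ = 1` it is above this interval; in
both cases it is a Poisson process of rate `1` as long as it stays above `4/5`, and it stays there
forever with positive probability.
-/

open MeasureTheory ProbabilityTheory Filter Topology
open scoped ENNReal

namespace Pool.Agent.Results.MP_cbf971_pr.NotMonotone

/-- The integral of the intensity `u ↦ lam ((n + γ) / (u + 1))` over the times `u ≥ 0` between `s`
and `t`. -/
noncomputable def cumulative (lam : ℝ → ℝ) (γ : ℝ) (n : ℕ) (s t : ℝ≥0∞) : ℝ≥0∞ :=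
  ∫⁻ u in {u : ℝ | 0 ≤ u ∧ s ≤ ENNReal.ofReal u ∧ ENNReal.ofReal u ≤ t},
    ENNReal.ofReal (lam ((n + γ) / (u + 1)))

/-- The jump times `T₀ = 0, T₁, T₂, …` (with the value `∞` allowed) as a function of the sequence
`e`: after the `n`-th jump the intensity at time `u` is `lam ((n + γ) / (u + 1))`, and the next jump
occurs when the cumulative intensity since the `n`-th jump reaches `e n`. -/
noncomputable def jumpTime (lam : ℝ → ℝ) (γ : ℝ) (e : ℕ → ℝ) : ℕ → ℝ≥0∞
  | 0 => 0
  | n + 1 => sInf {t : ℝ≥0∞ | jumpTime lam γ e n ≤ t ∧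
      ENNReal.ofReal (e n) ≤ cumulative lam γ n (jumpTime lam γ e n) t}

/-- The number `N_t` of points in `(0, t]`. -/
noncomputable def count (lam : ℝ → ℝ) (γ : ℝ) (e : ℕ → ℝ) (t : ℝ) : ℕ∞ :=
  Set.encard {n : ℕ | jumpTime lam γ e (n + 1) ≤ ENNReal.ofReal t}

/-- The law of a sequence of independent exponential random variables with mean one. -/
noncomputable def clocks : Measure (ℕ → ℝ) := Measure.infinitePi fun _ => expMeasure 1

/-- The probability that `N_t` is finite for all `t` and `N_t / t → x`, for the process with the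
initial condition `γ`. -/
noncomputable def limitProb (lam : ℝ → ℝ) (x γ : ℝ) : ℝ≥0∞ :=
  clocks {e | (∀ t : ℝ, 0 ≤ t → count lam γ e t < ⊤) ∧
    Tendsto (fun t : ℝ => ((count lam γ e t).toNat : ℝ) / t) atTop (𝓝 x)}

/-- `x` is a fixed point of `lam : [0, ∞) → [0, ∞)`. -/
def IsFixed (lam : ℝ → ℝ) (x : ℝ) : Prop := 0 ≤ x ∧ lam x = x

/-- `x` is a stable fixed point: `lam y > y` slightly below `x`, and `lam y < y` slightly above. -/
def IsStable (lam : ℝ → ℝ) (x : ℝ) : Prop :=
  IsFixed lam x ∧ (∀ᶠ y in 𝓝[<] x, 0 ≤ y → y < lam y) ∧ ∀ᶠ y in 𝓝[>] x, lam y < y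

/-- The intensity function. -/
noncomputable def lamEx (z : ℝ) : ℝ := max 0 (1 / 5 - z) + min 1 (max 0 (5 * z - 3))

/-! ### The intensity function -/

lemma lamEx_low {z : ℝ} (h : z ≤ 1 / 5) : lamEx z = 1 / 5 - z := by
  unfold lamEx
  rw [max_eq_right (by linarith), max_eq_left (by linarith : 5 * z - 3 ≤ 0),
    min_eq_right (by norm_num)]
  ring

lemma lamEx_mid {z : ℝ} (h : 1 / 5 ≤ z) (h' : z ≤ 3 / 5) : lamEx z = 0 := by
  unfold lamEx
  rw [max_eq_left (by linarith), max_eq_left (by linarith : 5 * z - 3 ≤ 0),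
    min_eq_right (by norm_num)]
  ring

lemma lamEx_up {z : ℝ} (h : 3 / 5 ≤ z) (h' : z ≤ 4 / 5) : lamEx z = 5 * z - 3 := by
  unfold lamEx
  rw [max_eq_left (by linarith), max_eq_right (by linarith : 0 ≤ 5 * z - 3),
    min_eq_right (by linarith)]
  ring

lemma lamEx_high {z : ℝ} (h : 4 / 5 ≤ z) : lamEx z = 1 := by
  unfold lamEx
  rw [max_eq_left (by linarith), max_eq_right (by linarith : 0 ≤ 5 * z - 3),
    min_eq_left (by linarith)]
  ring

lemma continuous_lamEx : Continuous lamEx := by
  unfold lamEx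
  fun_prop

lemma lamEx_nonneg (z : ℝ) : 0 ≤ lamEx z := by
  unfold lamEx
  have h1 : (0 : ℝ) ≤ max 0 (1 / 5 - z) := le_max_left _ _
  have h2 : (0 : ℝ) ≤ min 1 (max 0 (5 * z - 3)) := le_min zero_le_one (le_max_left _ _)
  linarith

lemma isFixed_iff (x : ℝ) : IsFixed lamEx x ↔ x = 1 / 10 ∨ x = 3 / 4 ∨ x = 1 := by
  unfold IsFixed
  constructor
  · rintro ⟨_, h⟩
    rcases le_total x (1 / 5) with h1 | h1
    · rw [lamEx_low h1] at h
      left
      linarith
    · rcases le_total x (3 / 5) with h2 | h2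
      · rw [lamEx_mid h1 h2] at h
        linarith
      · rcases le_total x (4 / 5) with h3 | h3
        · rw [lamEx_up h2 h3] at h
          right; left
          linarith
        · rw [lamEx_high h3] at h
          right; right
          exact h.symm
  · rintro (h | h | h)
    · rw [h, lamEx_low (by norm_num)]
      norm_num
    · rw [h, lamEx_up (by norm_num) (by norm_num)]
      norm_num
    · rw [h, lamEx_high (by norm_num)]
      norm_num

lemma isStable_iff (x : ℝ) : IsStable lamEx x ↔ x = 1 / 10 ∨ x = 1 := by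
  constructor
  · rintro ⟨h1, h2, _⟩
    rcases (isFixed_iff x).1 h1 with h | h | h
    · exact Or.inl h
    · exfalso
      rw [h] at h2
      have h4 : ∀ᶠ y : ℝ in 𝓝[<] (3 / 4 : ℝ), y ∈ Set.Ioo (3 / 5 : ℝ) (3 / 4) :=
        Ioo_mem_nhdsLT (by norm_num)
      obtain ⟨y, hy1, hy2⟩ := (h2.and h4).exists
      have h5 := hy1 (by linarith [hy2.1])
      rw [lamEx_up hy2.1.le (by linarith [hy2.2])] at h5
      linarith [hy2.2]
    · exact Or.inr h
  · rintro (h | h)
    · refine ⟨(isFixed_iff x).2 (Or.inl h), ?_, ?_⟩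
      · rw [h]
        filter_upwards [self_mem_nhdsWithin] with y hy _
        have hy' : y < 1 / 10 := hy
        rw [lamEx_low (by linarith)]
        linarith
      · rw [h]
        filter_upwards [Ioo_mem_nhdsGT (show (1 / 10 : ℝ) < 1 / 5 by norm_num)] with y hy
        rw [lamEx_low hy.2.le]
        linarith [hy.1]
    · refine ⟨(isFixed_iff x).2 (Or.inr (Or.inr h)), ?_, ?_⟩
      · rw [h]
        filter_upwards [Ioo_mem_nhdsLT (show (4 / 5 : ℝ) < 1 by norm_num)] with y hy _
        rw [lamEx_high hy.1.le]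
        exact hy.2
      · rw [h]
        filter_upwards [self_mem_nhdsWithin] with y hy
        have hy' : 1 < y := hy
        rw [lamEx_high (by linarith)]
        exact hy'

/-! ### Deterministic facts on the jump times -/

/-- The cumulative intensity is zero if the intensity vanishes. -/
lemma jump_blocked {γ : ℝ} {e : ℕ → ℝ} {n : ℕ} {r : ℝ} (he : 0 < e n)
    (h0 : ∀ u : ℝ, 0 ≤ u → jumpTime lamEx γ e n ≤ ENNReal.ofReal u → u < r →
      lamEx ((n + γ) / (u + 1)) = 0) :
    ENNReal.ofReal r ≤ jumpTime lamEx γ e (n + 1) := by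
  rw [jumpTime]
  refine le_sInf fun t ht => ?_
  obtain ⟨_, h2⟩ := ht
  by_contra hcon
  push Not at hcon
  have h3 : cumulative lamEx γ n (jumpTime lamEx γ e n) t = 0 := by
    unfold cumulative
    have hm : MeasurableSet {u : ℝ | 0 ≤ u ∧ jumpTime lamEx γ e n ≤ ENNReal.ofReal u ∧
        ENNReal.ofReal u ≤ t} := by
      refine MeasurableSet.inter measurableSet_Ici (MeasurableSet.inter ?_ ?_)
      · exact measurableSet_le measurable_const ENNReal.measurable_ofReal
      · exact measurableSet_le ENNReal.measurable_ofReal measurable_const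
    rw [setLIntegral_congr_fun hm (g := fun _ => 0)]
    · simp
    · rintro u ⟨hu1, hu2, hu3⟩
      have : u < r := by
        have := hu3.trans_lt hcon
        exact (ENNReal.ofReal_lt_ofReal_iff_of_nonneg hu1).1 this
      simp only [h0 u hu1 hu2 this, ENNReal.ofReal_zero]
  rw [h3] at h2
  have := ENNReal.ofReal_pos.2 he
  exact absurd h2 (not_le.2 this)

/-- If the intensity is constant, equal to `r > 0`, then the next jump comes after `e n / r`. -/
lemma jump_const {γ : ℝ} {e : ℕ → ℝ} {n : ℕ} {r s : ℝ} (he : 0 < e n) (hr : 0 < r) (hs : 0 ≤ s)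
    (hT : jumpTime lamEx γ e n = ENNReal.ofReal s)
    (h0 : ∀ u : ℝ, s ≤ u → u ≤ s + e n / r → lamEx ((n + γ) / (u + 1)) = r) :
    jumpTime lamEx γ e (n + 1) = ENNReal.ofReal (s + e n / r) := by
  have hpos : 0 < e n / r := div_pos he hr
  have hcum : ∀ t : ℝ, s ≤ t → t ≤ s + e n / r →
      cumulative lamEx γ n (ENNReal.ofReal s) (ENNReal.ofReal t) = ENNReal.ofReal (r * (t - s)) := by
    intro t ht ht'
    unfold cumulative
    have hset : {u : ℝ | 0 ≤ u ∧ ENNReal.ofReal s ≤ ENNReal.ofReal u ∧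
        ENNReal.ofReal u ≤ ENNReal.ofReal t} = Set.Icc s t := by
      ext u
      simp only [Set.mem_ofPred_eq, Set.mem_Icc]
      constructor
      · rintro ⟨h1, h2, h3⟩
        exact ⟨(ENNReal.ofReal_le_ofReal_iff h1).1 h2,
          (ENNReal.ofReal_le_ofReal_iff (hs.trans ht)).1 h3⟩
      · rintro ⟨h1, h2⟩
        exact ⟨hs.trans h1, ENNReal.ofReal_le_ofReal h1, ENNReal.ofReal_le_ofReal h2⟩
    rw [hset, setLIntegral_congr_fun measurableSet_Icc (g := fun _ => ENNReal.ofReal r)]
    · rw [setLIntegral_const, Real.volume_Icc, ENNReal.ofReal_mul hr.le]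
    · rintro u ⟨hu1, hu2⟩
      simp only [h0 u hu1 (hu2.trans ht')]
  rw [jumpTime, hT]
  apply le_antisymm
  · refine sInf_le ⟨ENNReal.ofReal_le_ofReal (by linarith), ?_⟩
    rw [hcum _ (by linarith) le_rfl]
    refine ENNReal.ofReal_le_ofReal (le_of_eq ?_)
    field_simp
    ring
  · refine le_sInf ?_
    rintro t ⟨h1, h2⟩
    by_contra hcon
    push Not at hcon
    have htop : t ≠ ∞ := (hcon.trans_le le_top).ne
    have ht : t = ENNReal.ofReal t.toReal := (ENNReal.ofReal_toReal htop).symm
    rw [ht] at h1 h2 hcon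
    have h3 : s ≤ t.toReal := (ENNReal.ofReal_le_ofReal_iff ENNReal.toReal_nonneg).1 h1
    have h4 : t.toReal < s + e n / r := by
      exact (ENNReal.ofReal_lt_ofReal_iff_of_nonneg ENNReal.toReal_nonneg).1 hcon
    rw [hcum _ h3 h4.le] at h2
    have h5 := (ENNReal.ofReal_le_ofReal_iff (mul_nonneg hr.le (by linarith))).1 h2
    have h6 : r * (t.toReal - s) < e n := by
      have : t.toReal - s < e n / r := by linarith
      rw [lt_div_iff₀ hr] at this
      linarith
    linarith

/-- Confinement: started from `3/5`, the process stays below `3/5`. -/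
lemma confined {e : ℕ → ℝ} (he : ∀ n, 0 < e n) (n : ℕ) :
    ∀ s : ℝ, 0 ≤ s → jumpTime lamEx (3 / 5) e n ≤ ENNReal.ofReal s →
      (n : ℝ) + 3 / 5 ≤ 3 / 5 * (s + 1) := by
  induction n with
  | zero =>
    intro s hs _
    simp only [Nat.cast_zero]
    linarith
  | succ n ih =>
    intro s hs h
    have h1 := jump_blocked (γ := 3 / 5) (e := e) (n := n) (r := 5 * (n + 3 / 5) - 1) (he n) (by
        intro u hu1 hu2 hu3
        have h2 := ih u hu1 hu2
        have h3 : (0 : ℝ) < u + 1 := by linarith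
        refine lamEx_mid ?_ ?_
        · rw [le_div_iff₀ h3]
          linarith
        · rw [div_le_iff₀ h3]
          exact h2)
    have h2 := (ENNReal.ofReal_le_ofReal_iff hs).1 (h1.trans h)
    push_cast
    have : (0 : ℝ) ≤ n := Nat.cast_nonneg n
    linarith

lemma count_le {e : ℕ → ℝ} (he : ∀ n, 0 < e n) {t : ℝ} (ht : 0 ≤ t) :
    ((count lamEx (3 / 5) e t).toNat : ℝ) ≤ 3 / 5 * t := by
  have h1 : {n : ℕ | jumpTime lamEx (3 / 5) e (n + 1) ≤ ENNReal.ofReal t} ⊆
      ((Finset.range ⌊3 / 5 * t⌋₊ : Finset ℕ) : Set ℕ) := by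
    intro n hn
    have h2 := confined he (n + 1) t ht hn
    push_cast at h2
    rw [Finset.coe_range, Set.mem_Iio]
    have h3 : ((n + 1 : ℕ) : ℝ) ≤ 3 / 5 * t := by
      push_cast
      linarith
    exact Nat.lt_of_succ_le (Nat.le_floor h3)
  have h2 : count lamEx (3 / 5) e t ≤ (⌊3 / 5 * t⌋₊ : ℕ∞) := by
    unfold count
    refine (Set.encard_le_encard h1).trans ?_
    rw [Set.encard_coe_eq_coe_finsetCard, Finset.card_range]
  have h3 : (count lamEx (3 / 5) e t).toNat ≤ ⌊3 / 5 * t⌋₊ := by
    have := ENat.toNat_le_toNat h2 (ENat.natCast_ne_top _)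
    simpa using this
  calc ((count lamEx (3 / 5) e t).toNat : ℝ) ≤ (⌊3 / 5 * t⌋₊ : ℝ) := by exact_mod_cast h3
    _ ≤ 3 / 5 * t := Nat.floor_le (by positivity)

/-- The counting process of a sequence `τ` with `τ n / n → 1`. -/
lemma count_tendsto {γ : ℝ} {e : ℕ → ℝ} {τ : ℕ → ℝ} (hτ0 : τ 0 = 0) (hτ : StrictMono τ)
    (hJ : ∀ n, jumpTime lamEx γ e n = ENNReal.ofReal (τ n))
    (hlim : Tendsto (fun n : ℕ => τ n / n) atTop (𝓝 1)) :
    (∀ t : ℝ, 0 ≤ t → count lamEx γ e t < ⊤) ∧
      Tendsto (fun t : ℝ => ((count lamEx γ e t).toNat : ℝ) / t) atTop (𝓝 1) := by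
  have hnn : ∀ n, 0 ≤ τ n := fun n => by
    rw [← hτ0]
    exact hτ.monotone (Nat.zero_le n)
  have hinf : Tendsto τ atTop atTop := by
    have h1 : Tendsto (fun n : ℕ => τ n / n * n) atTop atTop :=
      hlim.pos_mul_atTop one_pos tendsto_natCast_atTop_atTop
    refine h1.congr' ?_
    filter_upwards [eventually_gt_atTop 0] with n hn
    have : (n : ℝ) ≠ 0 := by exact_mod_cast hn.ne'
    field_simp
  have hex : ∀ t : ℝ, ∃ k, t < τ (k + 1) := by
    intro t
    obtain ⟨N, hN⟩ := (hinf.eventually_gt_atTop t).exists_forall_of_atTop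
    exact ⟨N, hN (N + 1) (Nat.le_succ N)⟩
  classical
  set K : ℝ → ℕ := fun t => Nat.find (hex t) with hK
  have hK1 : ∀ t, t < τ (K t + 1) := fun t => Nat.find_spec (hex t)
  have hK2 : ∀ t, 0 ≤ t → τ (K t) ≤ t := by
    intro t ht
    rcases Nat.eq_zero_or_pos (K t) with h | h
    · rw [h, hτ0]
      exact ht
    · have h1 := Nat.find_min (hex t) (m := K t - 1) (Nat.sub_lt h one_pos)
      have h2 : K t - 1 + 1 = K t := Nat.sub_add_cancel h
      rw [h2] at h1
      exact not_lt.1 h1
  have hcount : ∀ t, 0 ≤ t → count lamEx γ e t = (K t : ℕ∞) := by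
    intro t ht
    unfold count
    have h1 : {n : ℕ | jumpTime lamEx γ e (n + 1) ≤ ENNReal.ofReal t} =
        ((Finset.range (K t) : Finset ℕ) : Set ℕ) := by
      ext n
      rw [Finset.coe_range, Set.mem_Iio, Set.mem_ofPred_eq, hJ, ENNReal.ofReal_le_ofReal_iff ht]
      constructor
      · intro h
        have h2 : τ (n + 1) < τ (K t + 1) := h.trans_lt (hK1 t)
        have := hτ.lt_iff_lt.1 h2
        omega
      · intro h
        exact (hτ.monotone (Nat.succ_le_of_lt h)).trans (hK2 t ht)
    rw [h1, Set.encard_coe_eq_coe_finsetCard, Finset.card_range]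
  refine ⟨fun t ht => by
    rw [hcount t ht]
    exact ENat.natCast_lt_top _, ?_⟩
  have hKinf : Tendsto K atTop atTop := by
    rw [tendsto_atTop]
    intro b
    filter_upwards [eventually_ge_atTop (τ (b + 1)), eventually_ge_atTop 0] with t ht ht0
    have h2 : τ (b + 1) < τ (K t + 1) := ht.trans_lt (hK1 t)
    have := hτ.lt_iff_lt.1 h2
    omega
  -- the two bounds
  have hA : Tendsto (fun n : ℕ => (n : ℝ) / τ n) atTop (𝓝 1) := by
    have := hlim.inv₀ one_ne_zero
    rw [inv_one] at this
    refine this.congr fun n => ?_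
    rw [inv_div]
  have hB : Tendsto (fun n : ℕ => (n : ℝ) / τ (n + 1)) atTop (𝓝 1) := by
    have h1 : Tendsto (fun n : ℕ => ((n + 1 : ℕ) : ℝ) / τ (n + 1)) atTop (𝓝 1) :=
      hA.comp (tendsto_add_atTop_nat 1)
    have h2 : Tendsto (fun n : ℕ => 1 / τ (n + 1)) atTop (𝓝 0) :=
      (tendsto_const_nhds.div_atTop hinf).comp (tendsto_add_atTop_nat 1)
    have h3 := h1.sub h2
    rw [sub_zero] at h3
    refine h3.congr fun n => ?_
    push_cast
    ring
  refine tendsto_of_tendsto_of_tendsto_of_le_of_le' (hB.comp hKinf) (hA.comp hKinf) ?_ ?_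
  · filter_upwards [eventually_gt_atTop 0] with t ht
    rw [hcount t ht.le, ENat.toNat_natCast]
    simp only [Function.comp_apply]
    exact div_le_div_of_nonneg_left (Nat.cast_nonneg _) ht (hK1 t).le
  · filter_upwards [eventually_gt_atTop 0, hKinf.eventually_gt_atTop 0] with t ht ht2
    rw [hcount t ht.le, ENat.toNat_natCast]
    simp only [Function.comp_apply]
    have h1 : 0 < τ (K t) := by
      rw [← hτ0]
      exact hτ ht2
    exact div_le_div_of_nonneg_left (Nat.cast_nonneg _) h1 (hK2 t ht.le)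

/-- The good sequences of clocks. -/
structure Good (e : ℕ → ℝ) : Prop where
  pos : ∀ n, 0 < e n
  lim : Tendsto (fun n : ℕ => (∑ i ∈ Finset.range n, e i) / n) atTop (𝓝 1)
  bound : ∀ n : ℕ, 1 ≤ n → (∑ i ∈ Finset.range (n + 1), e i) + 4 * e 0 ≤ 5 / 4 * n - 1

lemma sum_strictMono {e : ℕ → ℝ} (he : ∀ n, 0 < e n) :
    StrictMono fun n : ℕ => ∑ i ∈ Finset.range n, e i := by
  refine strictMono_nat_of_lt_succ fun n => ?_
  rw [Finset.sum_range_succ]
  linarith [he n]

/-- For good sequences the process with `γ = 1` has rate `1` forever. -/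
lemma good_one {e : ℕ → ℝ} (h : Good e) :
    (∀ t : ℝ, 0 ≤ t → count lamEx 1 e t < ⊤) ∧
      Tendsto (fun t : ℝ => ((count lamEx 1 e t).toNat : ℝ) / t) atTop (𝓝 1) := by
  have hS := sum_strictMono h.pos
  have hnn : ∀ n, 0 ≤ ∑ i ∈ Finset.range n, e i := fun n =>
    Finset.sum_nonneg fun i _ => (h.pos i).le
  refine count_tendsto (τ := fun n => ∑ i ∈ Finset.range n, e i) (by simp) hS (fun n => ?_) h.lim
  induction n with
  | zero => simp [jumpTime]
  | succ n ih =>
    have h1 := jump_const (γ := 1) (e := e) (n := n) (r := 1)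
      (s := ∑ i ∈ Finset.range n, e i) (h.pos n) one_pos (hnn n) ih (by
        intro u hu1 hu2
        have hu0 : 0 ≤ u := (hnn n).trans hu1
        refine lamEx_high ?_
        rw [le_div_iff₀ (by linarith)]
        rw [div_one, ← Finset.sum_range_succ] at hu2
        rcases Nat.eq_zero_or_pos n with hn | hn
        · have h2 := h.bound 1 le_rfl
          rw [hn] at hu2 ⊢
          simp only [Finset.sum_range_succ, Finset.range_zero, Finset.sum_empty] at hu2 h2
          have h3 := h.pos 1
          push_cast at h2 ⊢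
          linarith
        · have h2 := h.bound n hn
          have h3 := h.pos 0
          linarith)
    rw [h1, div_one, Finset.sum_range_succ]

/-- For good sequences the process with `γ = 0` has rate `1` after the first jump. -/
lemma good_zero {e : ℕ → ℝ} (h : Good e) :
    (∀ t : ℝ, 0 ≤ t → count lamEx 0 e t < ⊤) ∧
      Tendsto (fun t : ℝ => ((count lamEx 0 e t).toNat : ℝ) / t) atTop (𝓝 1) := by
  have hS := sum_strictMono h.pos
  have hnn : ∀ n, 0 ≤ ∑ i ∈ Finset.range n, e i := fun n =>
    Finset.sum_nonneg fun i _ => (h.pos i).le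
  set τ : ℕ → ℝ := fun n => if n = 0 then 0 else (∑ i ∈ Finset.range n, e i) + 4 * e 0 with hτ
  have hτs : ∀ n, τ (n + 1) = (∑ i ∈ Finset.range (n + 1), e i) + 4 * e 0 := fun n =>
    if_neg (Nat.succ_ne_zero n)
  have he0 := h.pos 0
  refine count_tendsto (τ := τ) (if_pos rfl) ?_ (fun n => ?_) ?_
  · refine strictMono_nat_of_lt_succ fun n => ?_
    rcases n with _ | n
    · rw [hτs]
      have : τ 0 = 0 := if_pos rfl
      rw [this]
      have := hnn 1
      linarith
    · rw [hτs, hτs]
      have := hS (Nat.lt_succ_self (n + 1))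
      simp only at this
      linarith
  · induction n with
    | zero =>
      have : τ 0 = 0 := if_pos rfl
      rw [this]
      simp [jumpTime]
    | succ n ih =>
      rcases n with _ | n
      · have h0 : τ 0 = 0 := if_pos rfl
        have h1 := jump_const (γ := 0) (e := e) (n := 0) (r := 1 / 5)
          (s := 0) (h.pos 0) (by norm_num) le_rfl (by simp [jumpTime]) (by
            intro u _ _
            simp only [Nat.cast_zero, add_zero, zero_div]
            rw [lamEx_low (by norm_num)]
            norm_num)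
        rw [h1, hτs]
        congr 1
        simp
        ring
      · have h1 := jump_const (γ := 0) (e := e) (n := n + 1) (r := 1)
          (s := τ (n + 1)) (h.pos (n + 1)) one_pos (by
            rw [hτs]
            have := hnn (n + 1)
            linarith) ih (by
            intro u hu1 hu2
            have hu0 : 0 ≤ u := by
              refine le_trans ?_ hu1
              rw [hτs]
              have := hnn (n + 1)
              linarith
            refine lamEx_high ?_
            rw [le_div_iff₀ (by linarith)]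
            rw [hτs, div_one] at hu2
            have h2 := h.bound (n + 1) (Nat.succ_pos n)
            rw [Finset.sum_range_succ] at h2
            linarith)
        rw [h1, hτs, hτs, div_one, Finset.sum_range_succ _ (n + 1)]
        congr 1
        ring
  · have h1 : Tendsto (fun n : ℕ => (∑ i ∈ Finset.range n, e i) / n + (4 * e 0) / (n : ℝ)) atTop
        (𝓝 (1 + 0)) := h.lim.add (tendsto_const_nhds.div_atTop tendsto_natCast_atTop_atTop)
    rw [add_zero] at h1
    refine h1.congr' ?_
    filter_upwards [eventually_gt_atTop 0] with n hn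
    have : τ n = (∑ i ∈ Finset.range n, e i) + 4 * e 0 := if_neg hn.ne'
    rw [this, add_div]

/-! ### The good sequences have positive probability -/

lemma prob_exp : IsProbabilityMeasure (expMeasure 1) := isProbabilityMeasure_expMeasure one_pos

lemma prob_clocks : IsProbabilityMeasure clocks := by
  have := prob_exp
  unfold clocks
  infer_instance

lemma map_eval (n : ℕ) : clocks.map (fun e => e n) = expMeasure 1 := by
  have := prob_exp
  exact Measure.infinitePi_map_eval (fun _ : ℕ => expMeasure 1) n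

lemma exp_Iic (x : ℝ) (hx : 0 ≤ x) :
    expMeasure 1 (Set.Iic x) = ENNReal.ofReal (1 - Real.exp (-x)) := by
  have := prob_exp
  rw [← ofReal_cdf, cdf_expMeasure_eq one_pos, if_pos hx, one_mul]

lemma exp_Iic_zero : expMeasure 1 (Set.Iic 0) = 0 := by
  rw [exp_Iic 0 le_rfl]
  simp

lemma exp_Ioc_pos {x : ℝ} (hx : 0 < x) : 0 < expMeasure 1 (Set.Ioc 0 x) := by
  have h1 : expMeasure 1 (Set.Iic x) ≤ expMeasure 1 (Set.Iic 0) + expMeasure 1 (Set.Ioc 0 x) := by
    refine (measure_mono ?_).trans (measure_union_le _ _)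
    intro y hy
    rcases le_or_gt y 0 with h | h
    · exact Or.inl h
    · exact Or.inr ⟨h, hy⟩
  rw [exp_Iic_zero, zero_add, exp_Iic x hx.le] at h1
  refine lt_of_lt_of_le ?_ h1
  rw [ENNReal.ofReal_pos]
  have := Real.exp_lt_exp.2 (neg_lt_zero.2 hx)
  rw [Real.exp_zero] at this
  linarith

lemma ae_pos : ∀ᵐ e ∂clocks, ∀ n, 0 < e n := by
  rw [ae_all_iff]
  intro n
  have h1 : clocks {e | ¬ 0 < e n} = 0 := by
    have h2 : {e : ℕ → ℝ | ¬ 0 < e n} = (fun e : ℕ → ℝ => e n) ⁻¹' (Set.Iic 0) := by
      ext e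
      simp
    rw [h2, ← Measure.map_apply (measurable_pi_apply n) measurableSet_Iic, map_eval, exp_Iic_zero]
  exact h1

lemma density_eq : exponentialPDF 1 = fun x => ENNReal.ofReal (if 0 ≤ x then Real.exp (-x) else 0) := by
  funext x
  rw [exponentialPDF_eq]
  simp

/-- The mean of the exponential distribution. -/
lemma exp_mean : Integrable (fun x : ℝ => x) (expMeasure 1) ∧ ∫ x, x ∂(expMeasure 1) = 1 := by
  have e1 : expMeasure 1 = volume.withDensity (exponentialPDF 1) := rfl
  have hm : Measurable (exponentialPDF 1) :=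
    (measurable_exponentialPDFReal 1).ennreal_ofReal
  have hlt : ∀ᵐ x : ℝ, exponentialPDF 1 x < ∞ := by
    refine Eventually.of_forall fun x => ?_
    rw [density_eq]
    exact ENNReal.ofReal_lt_top
  have e2 : (fun x : ℝ => (exponentialPDF 1 x).toReal • x) =
      Set.indicator (Set.Ioi 0) (fun x : ℝ => Real.exp (-x) * x ^ ((2 : ℝ) - 1)) := by
    funext x
    simp only [density_eq]
    rw [Set.indicator]
    by_cases h : 0 < x
    · rw [if_pos (Set.mem_Ioi.2 h), if_pos h.le, ENNReal.toReal_ofReal (Real.exp_pos _).le]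
      norm_num
    · have h2 : x ∉ Set.Ioi (0 : ℝ) := h
      rw [if_neg h2]
      rcases (not_lt.1 h).eq_or_lt with h' | h'
      · rw [h']
        simp
      · rw [if_neg (not_le.2 h')]
        simp
  have hint := Real.GammaIntegral_convergent (s := 2) (by norm_num)
  constructor
  · rw [e1, integrable_withDensity_iff_integrable_smul' hm hlt, e2]
    exact hint.integrable_indicator measurableSet_Ioi
  · rw [e1, integral_withDensity_eq_integral_toReal_smul hm hlt, e2,
      integral_indicator measurableSet_Ioi, ← Real.Gamma_eq_integral (by norm_num)]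
    exact Real.Gamma_two

lemma ae_lim : ∀ᵐ (e : ℕ → ℝ) ∂clocks,
    Tendsto (fun n : ℕ => (∑ i ∈ Finset.range n, e i) / n) atTop (𝓝 1) := by
  have := prob_exp
  have hind : iIndepFun (fun (i : ℕ) (e : ℕ → ℝ) => e i) clocks :=
    iIndepFun_infinitePi (P := fun _ : ℕ => expMeasure 1) (X := fun _ x => x)
      (fun _ => measurable_id)
  have h0 : clocks.map (fun e => e 0) = expMeasure 1 := map_eval 0
  have hint : Integrable (fun e : ℕ → ℝ => e 0) clocks := by
    have h1 := exp_mean.1
    rw [← h0] at h1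
    exact (integrable_map_measure (g := fun x : ℝ => x) (by fun_prop)
      (measurable_pi_apply 0).aemeasurable).1 h1
  have hmean : ∫ e, e 0 ∂clocks = 1 := by
    have h1 := exp_mean.2
    rw [← h0, integral_map (measurable_pi_apply 0).aemeasurable (by fun_prop)] at h1
    exact h1
  have h := strong_law_ae_real (μ := clocks) (fun (i : ℕ) (e : ℕ → ℝ) => e i) hint
    (fun i j hij => hind.indepFun hij) (fun i =>
      ⟨(measurable_pi_apply i).aemeasurable, (measurable_pi_apply 0).aemeasurable, by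
        rw [map_eval, map_eval]⟩)
  rw [hmean] at h
  exact h

/-- The event which only depends on the clocks with index larger than `M`. -/
def Late (M : ℕ) : Set (ℕ → ℝ) :=
  {e | ∀ n : ℕ, M ≤ n → (∑ i ∈ Finset.Ioc M n, e i) ≤ 5 / 4 * n - 2}

/-- The event which only depends on the clocks with index at most `M`. -/
def Early (M : ℕ) : Set (ℕ → ℝ) :=
  {e | ∀ i ∈ Finset.range (M + 1), e i ∈ Set.Ioc (0 : ℝ) (1 / (20 * (M + 1)))}

lemma exists_late : ∃ M, 0 < clocks (Late M) := by
  by_contra hcon
  push Not at hcon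
  have h1 : ∀ M, clocks (Late M) = 0 := fun M => le_antisymm (hcon M) bot_le
  have h2 : ∀ᵐ e ∂clocks, ∃ M, e ∈ Late M := by
    filter_upwards [ae_pos, ae_lim] with e hpos hlim
    have h3 : Tendsto (fun n : ℕ => (∑ i ∈ Finset.range (n + 1), e i) / ((n + 1 : ℕ) : ℝ)) atTop
        (𝓝 1) := hlim.comp (tendsto_add_atTop_nat 1)
    have h4 := (h3.eventually_lt_const (show (1 : ℝ) < 9 / 8 by norm_num))
    have h5 : ∀ᶠ n : ℕ in atTop, (26 : ℝ) ≤ n :=
      tendsto_natCast_atTop_atTop.eventually_ge_atTop 26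
    obtain ⟨M, hM⟩ := (h4.and h5).exists_forall_of_atTop
    refine ⟨M, fun n hn => ?_⟩
    obtain ⟨h6, h7⟩ := hM n hn
    rw [div_lt_iff₀ (by positivity)] at h6
    push_cast at h6
    have h8 : (∑ i ∈ Finset.Ioc M n, e i) ≤ ∑ i ∈ Finset.range (n + 1), e i := by
      refine Finset.sum_le_sum_of_subset_of_nonneg (fun i hi => ?_) fun i _ _ => (hpos i).le
      rw [Finset.mem_Ioc] at hi
      exact Finset.mem_range.2 (by omega)
    linarith
  have h3 : clocks (⋃ M, Late M) = 0 := measure_iUnion_null h1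
  have h4 : clocks (⋃ M, Late M) = 1 := by
    have := prob_clocks
    rw [← prob_compl_eq_zero_iff₀]
    · refine measure_mono_null ?_ h2
      intro e he
      simpa using he
    · exact NullMeasurableSet.of_null h3
  rw [h3] at h4
  exact zero_ne_one h4

lemma measure_early_pos (M : ℕ) : 0 < clocks (Early M) := by
  have := prob_exp
  have h1 : Early M = Set.pi (↑(Finset.range (M + 1))) (fun _ => Set.Ioc (0 : ℝ) (1 / (20 * (M + 1)))) := by
    ext e
    simp [Early, Set.mem_pi]
  rw [h1]
  unfold clocks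
  rw [Measure.infinitePi_pi _ (fun _ _ => measurableSet_Ioc)]
  refine pos_iff_ne_zero.2 (Finset.prod_ne_zero_iff.2 fun i _ => ?_)
  exact (exp_Ioc_pos (by positivity)).ne'

lemma measure_inter_pos (M : ℕ) (hM : 0 < clocks (Late M)) :
    0 < clocks (Early M ∩ Late M) := by
  have := prob_exp
  have hind : iIndepFun (fun (i : ℕ) (e : ℕ → ℝ) => e i) clocks :=
    iIndepFun_infinitePi (P := fun _ : ℕ => expMeasure 1) (X := fun _ x => x)
      (fun _ => measurable_id)
  have hind' : iIndep (fun i : ℕ => MeasurableSpace.comap (fun e : ℕ → ℝ => e i) inferInstance)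
      clocks := hind
  have hdisj : Disjoint (Set.Iic M) (Set.Ioi M) := Set.Iic_disjoint_Ioi le_rfl
  have key := indep_iSup_of_disjoint (fun i => (measurable_pi_apply i).comap_le) hind' hdisj
  have hE : MeasurableSet[⨆ i ∈ Set.Iic M, MeasurableSpace.comap (fun e : ℕ → ℝ => e i)
      inferInstance] (Early M) := by
    have h1 : Early M = ⋂ i ∈ Finset.range (M + 1),
        (fun e : ℕ → ℝ => e i) ⁻¹' (Set.Ioc (0 : ℝ) (1 / (20 * (M + 1)))) := by
      ext e
      simp [Early]
    rw [h1]
    refine Finset.measurableSet_biInter _ fun i hi => ?_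
    have hi' : i ∈ Set.Iic M := by
      rw [Finset.mem_range] at hi
      exact Set.mem_Iic.2 (by omega)
    have h2 : MeasurableSet[MeasurableSpace.comap (fun e : ℕ → ℝ => e i) inferInstance]
        ((fun e : ℕ → ℝ => e i) ⁻¹' (Set.Ioc (0 : ℝ) (1 / (20 * (M + 1))))) :=
      ⟨_, measurableSet_Ioc, rfl⟩
    exact (le_iSup₂ (f := fun (i : ℕ) (_ : i ∈ Set.Iic M) =>
      MeasurableSpace.comap (fun e : ℕ → ℝ => e i) inferInstance) i hi') _ h2
  have hL : MeasurableSet[⨆ i ∈ Set.Ioi M, MeasurableSpace.comap (fun e : ℕ → ℝ => e i)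
      inferInstance] (Late M) := by
    have h1 : Late M = ⋂ n : ℕ, ⋂ _ : M ≤ n, {e : ℕ → ℝ | (∑ i ∈ Finset.Ioc M n, e i) ≤
        5 / 4 * n - 2} := by
      ext e
      simp [Late]
    rw [h1]
    refine MeasurableSet.iInter fun n => MeasurableSet.iInter fun _ => ?_
    have h2 : @Measurable _ _ (⨆ i ∈ Set.Ioi M, MeasurableSpace.comap (fun e : ℕ → ℝ => e i)
        inferInstance) _ (fun e : ℕ → ℝ => ∑ i ∈ Finset.Ioc M n, e i) := by
      refine Finset.measurable_sum _ fun i hi => ?_
      have hi' : i ∈ Set.Ioi M := (Finset.mem_Ioc.1 hi).1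
      exact Measurable.of_comap_le (le_iSup₂ (f := fun (i : ℕ) (_ : i ∈ Set.Ioi M) =>
        MeasurableSpace.comap (fun e : ℕ → ℝ => e i) inferInstance) i hi')
    exact h2 measurableSet_Iic
  rw [(Indep_iff _ _ _).1 key _ _ hE hL]
  exact ENNReal.mul_pos (measure_early_pos M).ne' hM.ne'

lemma good_pos : 0 < clocks {e | Good e} := by
  obtain ⟨M, hM⟩ := exists_late
  refine (measure_inter_pos M hM).trans_le ?_
  refine measure_mono_ae ?_
  filter_upwards [ae_pos, ae_lim] with e hpos hlim he
  obtain ⟨h1, h2⟩ := he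
  refine ⟨hpos, hlim, fun n hn => ?_⟩
  have hM1 : (0 : ℝ) < M + 1 := by positivity
  have h0 := (h1 0 (Finset.mem_range.2 (Nat.succ_pos M))).2
  have hsum : ∀ k ≤ M + 1, ∑ i ∈ Finset.range k, e i ≤ k * (1 / (20 * (M + 1))) := by
    intro k hk
    calc ∑ i ∈ Finset.range k, e i ≤ ∑ i ∈ Finset.range k, (1 / (20 * (M + 1)) : ℝ) := by
          refine Finset.sum_le_sum fun i hi => ?_
          rw [Finset.mem_range] at hi
          exact (h1 i (Finset.mem_range.2 (by omega))).2
      _ = k * (1 / (20 * (M + 1))) := by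
          rw [Finset.sum_const, Finset.card_range, nsmul_eq_mul]
  have hbig : ∀ k ≤ M + 1, ∑ i ∈ Finset.range k, e i + 4 * e 0 ≤ 1 / 4 := by
    intro k hk
    have h3 := hsum k hk
    have hk' : (k : ℝ) ≤ M + 1 := by exact_mod_cast hk
    have h4 : (k : ℝ) * (1 / (20 * (M + 1))) ≤ (M + 1) * (1 / (20 * (M + 1))) :=
      mul_le_mul_of_nonneg_right hk' (by positivity)
    have h5 : ((M : ℝ) + 1) * (1 / (20 * (M + 1))) = 1 / 20 := by
      field_simp
    have h6 : (1 : ℝ) / (20 * (M + 1)) ≤ 1 / 20 := by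
      rw [div_le_div_iff₀ (by positivity) (by norm_num)]
      have : (0 : ℝ) ≤ M := Nat.cast_nonneg M
      linarith
    linarith
  have hn' : (1 : ℝ) ≤ n := by exact_mod_cast hn
  rcases le_or_gt (n + 1) (M + 1) with h3 | h3
  · have := hbig (n + 1) h3
    linarith
  · have h4 := hbig (M + 1) le_rfl
    have h5 := h2 n (by omega)
    have h6 : ∑ i ∈ Finset.range (n + 1), e i =
        ∑ i ∈ Finset.range (M + 1), e i + ∑ i ∈ Finset.Ioc M n, e i := by
      rw [Finset.range_eq_Ico, Finset.range_eq_Ico, ← Finset.sum_Ico_consecutive e (Nat.zero_le _) h3.le]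
      congr 1
      refine Finset.sum_congr ?_ fun _ _ => rfl
      ext i
      rw [Finset.mem_Ico, Finset.mem_Ioc]
      omega
    linarith

/-- **The answer**: there is a continuous `lam : [0, ∞) → [0, ∞)` with finitely many fixed points,
exactly two of them, `x₁ < x₂`, stable, such that `p₂` is not monotone (neither nondecreasing nor
nonincreasing) on `[0, ∞)`. -/
theorem result : ∃ lam : ℝ → ℝ, ContinuousOn lam (Set.Ici 0) ∧ (∀ x, 0 ≤ x → 0 ≤ lam x) ∧
    {x | IsFixed lam x}.Finite ∧
    ∃ x₁ x₂ : ℝ, x₁ < x₂ ∧ {x | IsStable lam x} = {x₁, x₂} ∧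
      ¬ MonotoneOn (limitProb lam x₂) (Set.Ici 0) ∧ ¬ AntitoneOn (limitProb lam x₂) (Set.Ici 0) := by
  have hpos0 : 0 < limitProb lamEx 1 0 :=
    good_pos.trans_le (measure_mono fun e he => good_zero he)
  have hpos1 : 0 < limitProb lamEx 1 1 :=
    good_pos.trans_le (measure_mono fun e he => good_one he)
  have hzero : limitProb lamEx 1 (3 / 5) = 0 := by
    unfold limitProb
    refine measure_mono_null ?_ ae_pos
    rintro e ⟨_, he⟩ hpos
    have h1 : ∀ᶠ t : ℝ in atTop, ((count lamEx (3 / 5) e t).toNat : ℝ) / t ≤ 3 / 5 := by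
      filter_upwards [eventually_gt_atTop 0] with t ht
      rw [div_le_iff₀ ht]
      exact count_le hpos ht.le
    have := le_of_tendsto he h1
    norm_num at this
  refine ⟨lamEx, continuous_lamEx.continuousOn, fun x _ => lamEx_nonneg x, ?_, 1 / 10, 1,
    by norm_num, ?_, ?_, ?_⟩
  · have : {x | IsFixed lamEx x} = {1 / 10, 3 / 4, 1} := by
      ext x
      simp only [Set.mem_ofPred_eq, isFixed_iff, Set.mem_insert_iff, Set.mem_singleton_iff]
    rw [this]
    exact Set.toFinite _
  · ext x
    simp only [Set.mem_ofPred_eq, isStable_iff, Set.mem_insert_iff, Set.mem_singleton_iff]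
  · intro h
    have := h (Set.mem_Ici.2 le_rfl) (Set.mem_Ici.2 (by norm_num : (0 : ℝ) ≤ 3 / 5)) (by norm_num)
    rw [hzero] at this
    exact absurd hpos0 (not_lt.2 this)
  · intro h
    have := h (Set.mem_Ici.2 (by norm_num : (0 : ℝ) ≤ 3 / 5)) (Set.mem_Ici.2 zero_le_one)
      (by norm_num)
    rw [hzero] at this
    exact absurd hpos1 (not_lt.2 this)

end Pool.Agent.Results.MP_cbf971_pr.NotMonotone
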